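import Pool.Agent.helper90.FL.Spec

set_option autoImplicit false

namespace Pool.Agent.helper90.FL

open Finset Polynomial
open scoped Classical

theorem CLS : CLS_stmt := by
  intro V E s t D
  have h3 : ∀ v v', v' ∈ cls s t D v → cls s t D v' = cls s t D v := by
    intro v v' hv
    ext w
    constructor
    · intro hw S hS
      exact (hv S hS).trans (hw S hS)
    · intro hw S hS
      exact (hv S hS).symm.trans (hw S hS)
  refine ⟨?_, ?_, h3, ?_, ?_⟩
  · intro v S _
    exact Iff.rfl
  · intro v e he
    constructor
    · intro hs S hS
      exact (hs S hS).trans (hS e he)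
    · intro hs S hS
      exact (hs S hS).trans (hS e he).symm
  · intro v S hS hv w hw
    exact (hw S hS).mp hv
  · intro e
    constructor
    · intro h S hS
      have ht : t e ∈ cls s t D (s e) := by
        rw [h]
        intro S' _
        exact Iff.rfl
      exact ht S hS
    · intro h
      have ht : t e ∈ cls s t D (s e) := fun S hS => h S hS
      exact (h3 _ _ ht).symm

end Pool.Agent.helper90.FL
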