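import Pool.Agent.helper10.FL.SpecV

/-!
# fl:FLM2 (MP_70a088_an, rational maps): the full lattice, any ratio (helper32)
-/

set_option autoImplicit false

open Complex Metric Set Filter Topology MeasureTheory
open STA

noncomputable section

namespace FL

theorem FLM2 (hSQX2 : SQX2_stmt) (hLR2 : LR2_stmt) (hOUT : OUT_stmt) (hTHX : THX_stmt) (hTWX : TWX_stmt) (hOUT2 : OUT2_stmt) : FLM2_stmt := by
  intro K R th N e₀ hK hR hth hN he₀
  obtain ⟨s₁, hs₁, hLR⟩ := hLR2 K R th N e₀ hK hR hth hN he₀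
  have hs : 0 < min s₁ (1 / 10 ^ 20) := lt_min hs₁ (by norm_num)
  refine ⟨min s₁ (1 / 10 ^ 20), hs, ?_⟩
  intro Y₀ J U y r e a m he hELA hFII ζ hζ
  obtain ⟨i, n, hS⟩ := hSQX2 Y₀ J U y r e (min s₁ (1 / 10 ^ 20)) a m (he.trans (min_le_right _ _)) hs (min_le_right _ _) hFII
  have hS2 := hS ζ hζ
  rcases hLR Y₀ U y r e (min s₁ (1 / 10 ^ 20)) a m i n ζ (he.trans (min_le_left _ _)) (min_le_left _ _) hELA hS2 with ⟨m', ν, h1, h2⟩ | ⟨h1, h2⟩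
  · exact Or.inl (hOUT Y₀ U y r _ e _ 0 a m i n ζ hS2.sq m' ν h1 h2)
  · have hTH := hTHX Y₀ U y r e _ a m i n ζ hS2 h1 h2
    obtain ⟨k, b, hW⟩ := hTWX Y₀ U y r e _ a m ζ hFII.ok hTH
    exact Or.inr (hOUT2 Y₀ U y r e _ a m ζ k b hW)

end FL
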